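import Mathlib
import Pool.Agent.N108.ZZ.Prime

set_option autoImplicit false

/-!
# Nef linear systems with `K L ≤ 5` are non-special

Any number `n ≥ 4` of general points, any degree and any multiplicities. It is enough that the
class meets all `(-1)`-curves nonnegatively.
-/

namespace Pool.Agent.Results.MP_0f5763_ag.CanonicalDegreeFive

open MvPolynomial Pool.Agent.TH167 Pool.Agent.TH167.SHDefs

theorem result (n : ℕ) (hn : 4 ≤ n) (d : ℕ) (w : Fin n → ℕ) (hK : ∑ i, w i ≤ 3 * d + 5) :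
    ∃ F : MvPolynomial (Fin n × Fin 2) ℂ, F ≠ 0 ∧
      ∀ P : Fin n → Fin 2 → ℂ, MvPolynomial.eval (fun ij : Fin n × Fin 2 => P ij.1 ij.2) F ≠ 0 →
        (∀ (G : MvPolynomial (Fin 3) ℂ) (e : ℕ) (u : Fin n → ℕ), MinusOne P G e u →
          0 ≤ inter d w e u) →
        dimL P d w = max (virtdim d w) (-1) := by
  obtain ⟨r, rfl⟩ : ∃ r, n = r + 4 := ⟨n - 4, by omega⟩
  obtain ⟨F, hF, hF'⟩ := Pool.Agent.N108.ZZ.nef_open d w
  refine ⟨F, hF, fun P hP hnef => ?_⟩
  by_contra hcon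
  refine hF' P hP hnef ?_ hcon
  have h1 : ((∑ i, w i : ℕ) : ℤ) ≤ ((3 * d + 5 : ℕ) : ℤ) := by exact_mod_cast hK
  push_cast at h1
  unfold interK
  linarith

end Pool.Agent.Results.MP_0f5763_ag.CanonicalDegreeFive
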