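import Mathlib
import Pool.Agent.N108.ZZ.NegSeven

set_option autoImplicit false

/-!
# The inequality `deg ^ 2 ≥ ∑ mult ^ 2` for integral curves with `∑ mult ≤ 3 deg + 6`

Any number `r ≥ 4` of very general points: an integral plane curve of degree `d` with
multiplicities `w i` at the points, whose strict transform has positive arithmetic genus, satisfies
`∑ w i ^ 2 ≤ d ^ 2` if `∑ w i ≤ 3 d + 6`, and `∑ w i ^ 2 ≤ d ^ 2 + 1` if `∑ w i ≤ 3 d + 7`.
-/

namespace Pool.Agent.Results.MP_3c72fe_ag.CanonicalDegreeSeven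

open MvPolynomial Pool.Agent.TH167 Pool.Agent.TH167.SHDefs

theorem result (r : ℕ) (hr : 4 ≤ r) :
    ∃ Z : ℕ → MvPolynomial (Fin r × Fin 2) ℂ, (∀ k, Z k ≠ 0) ∧
      ∀ P : Fin r → Fin 2 → ℂ,
        (∀ k, MvPolynomial.eval (fun ij : Fin r × Fin 2 => P ij.1 ij.2) (Z k) ≠ 0) →
        ∀ (d : ℕ) (w : Fin r → ℕ) (C : MvPolynomial (Fin 3) ℂ), Curve P C d w →
          0 < inter d w d w + interK d w + 2 →
          (∑ i, w i ≤ 3 * d + 6 → ∑ i, w i ^ 2 ≤ d ^ 2) ∧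
          (∑ i, w i ≤ 3 * d + 7 → ∑ i, w i ^ 2 ≤ d ^ 2 + 1) := by
  obtain ⟨s, rfl⟩ : ∃ s, r = s + 4 := ⟨r - 4, by omega⟩
  obtain ⟨Z, hZ, h⟩ := SH.exists_fam (Fin (s + 4) × Fin 2)
  refine ⟨Z, hZ, fun P hP0 d w C hC hg => ?_⟩
  have hKc : ∀ c : ℕ, ∑ i, w i ≤ 3 * d + c → interK d w ≤ c := by
    intro c hc
    have h1 : ((∑ i, w i : ℕ) : ℤ) ≤ ((3 * d + c : ℕ) : ℤ) := by exact_mod_cast hc
    push_cast at h1
    unfold interK
    linarith
  have hsq : ∀ c : ℕ, -(c : ℤ) ≤ inter d w d w → ∑ i, w i ^ 2 ≤ d ^ 2 + c := by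
    intro c hc
    unfold inter at hc
    have h5 : ((∑ i, w i ^ 2 : ℕ) : ℤ) ≤ ((d ^ 2 + c : ℕ) : ℤ) := by
      push_cast
      rw [Finset.sum_congr rfl fun i _ => sq (w i : ℤ), sq]
      linarith
    exact_mod_cast h5
  by_cases hneg : inter d w d w < 0
  · have hne : ¬ MinusOne P C d w := fun h0 => by
      have h1 := h0.self
      have h2 := h0.canonical
      omega
    obtain ⟨h1, h2, -⟩ := Pool.Agent.N108.ZZ.neg_seven ((h _).1 hP0) hC hneg hne
    refine ⟨fun h3 => ?_, fun h3 => ?_⟩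
    · have h4 := hKc 6 h3
      push_cast at h4
      omega
    · have h4 := hKc 7 h3
      push_cast at h4
      refine hsq 1 ?_
      by_contra h5
      push_cast at h5
      have := h2 (by omega)
      omega
  · exact ⟨fun _ => hsq 0 (by push_cast; omega), fun _ => hsq 1 (by push_cast; omega)⟩

end Pool.Agent.Results.MP_3c72fe_ag.CanonicalDegreeSeven
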