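import Mathlib
import Pool.Agent.N108.ZZ.NegSeven

set_option autoImplicit false

/-!
# Negative prime divisors have `K C ≥ 7` and `C ^ 2 ≤ 2 g - 9`, or are `(-1)`-curves

Moreover `K C ≥ 8` and `C ^ 2 ≤ 2 g - 10` if `C ^ 2 ≤ -2`. Any number `n ≥ 4` of points in very
general position.
-/

namespace Pool.Agent.Results.MP_3c83d0_ag.CanonicalDegreeSeven

open MvPolynomial Pool.Agent.TH167 Pool.Agent.TH167.SHDefs

theorem result (n : ℕ) (hn : 4 ≤ n) :
    ∃ Z : ℕ → MvPolynomial (Fin n × Fin 2) ℂ, (∀ k, Z k ≠ 0) ∧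
      ∀ P : Fin n → Fin 2 → ℂ,
        (∀ k, MvPolynomial.eval (fun ij : Fin n × Fin 2 => P ij.1 ij.2) (Z k) ≠ 0) →
        ∀ (d : ℕ) (w : Fin n → ℕ) (C : MvPolynomial (Fin 3) ℂ) (g : ℤ), Curve P C d w →
          2 * g = inter d w d w + interK d w + 2 →
          0 ≤ inter d w d w ∨ (inter d w d w = -1 ∧ g = 0) ∨
            (7 ≤ interK d w ∧ inter d w d w ≤ 2 * g - 9 ∧
              (inter d w d w ≤ -2 → 8 ≤ interK d w ∧ inter d w d w ≤ 2 * g - 10)) := by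
  obtain ⟨r, rfl⟩ : ∃ r, n = r + 4 := ⟨n - 4, by omega⟩
  obtain ⟨Z, hZ, h⟩ := SH.exists_fam (Fin (r + 4) × Fin 2)
  refine ⟨Z, hZ, fun P hP0 d w C g hC hg => ?_⟩
  by_cases hneg : inter d w d w < 0
  · right
    by_cases hne : MinusOne P C d w
    · left
      have h1 := hne.self
      have h2 := hne.canonical
      exact ⟨h1, by omega⟩
    · right
      obtain ⟨h1, h2, -⟩ := Pool.Agent.N108.ZZ.neg_seven ((h _).1 hP0) hC hneg hne
      refine ⟨h1, by omega, fun h3 => ?_⟩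
      have h4 := h2 h3
      exact ⟨h4, by omega⟩
  · exact Or.inl (not_lt.1 hneg)

end Pool.Agent.Results.MP_3c83d0_ag.CanonicalDegreeSeven
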