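import Mathlib
import Pool.Agent.N108.ZZ.Prime

set_option autoImplicit false

/-!
# Integral curves with `K C ≤ 5` at general points have `h¹ = 0`

Any number `n ≥ 4` of general points, any degree and any multiplicities.
-/

namespace Pool.Agent.Results.MP_6ec8e4_ag.CanonicalDegreeFive

open MvPolynomial Pool.Agent.TH167 Pool.Agent.TH167.SHDefs

/-- The dimension of `H¹` of the class `(d, w)`, `d ≥ 0`, `w ≥ 0`, computed from `H⁰`. -/
noncomputable def hOne {n : ℕ} (P : Fin n → Fin 2 → ℂ) (d : ℕ) (w : Fin n → ℕ) : ℤ :=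
  dimL P d w - virtdim d w

theorem result (n : ℕ) (hn : 4 ≤ n) (d : ℕ) (w : Fin n → ℕ) (hK : ∑ i, w i ≤ 3 * d + 5) :
    ∃ F : MvPolynomial (Fin n × Fin 2) ℂ, F ≠ 0 ∧
      ∀ P : Fin n → Fin 2 → ℂ, MvPolynomial.eval (fun ij : Fin n × Fin 2 => P ij.1 ij.2) F ≠ 0 →
        (∃ C : MvPolynomial (Fin 3) ℂ, Curve P C d w) → hOne P d w = 0 := by
  obtain ⟨r, rfl⟩ : ∃ r, n = r + 4 := ⟨n - 4, by omega⟩
  obtain ⟨F, hF, hF'⟩ := Pool.Agent.N108.ZZ.prime_open d w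
  refine ⟨F, hF, fun P hP ⟨C, hC⟩ => ?_⟩
  unfold hOne
  rw [hF' P hP C hC ?_, sub_self]
  have h1 : ((∑ i, w i : ℕ) : ℤ) ≤ ((3 * d + 5 : ℕ) : ℤ) := by exact_mod_cast hK
  push_cast at h1
  unfold interK
  linarith

end Pool.Agent.Results.MP_6ec8e4_ag.CanonicalDegreeFive
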